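import Pool.Agent.H41.PNF.Cnt
import Pool.Agent.H59.HYP.CTM

/-!
# PNF, row YLS: the local conditions depend only on `f` modulo `P`
-/

set_option autoImplicit false

namespace Pool.PNF.YLS51

open Polynomial Matrix Pool.HYP Pool.T1 Pool.PRK IsDedekindDomain

variable {R : Type} [CommRing R]

theorem gr_map {A : Type} [CommRing A] (φ : R →+* A) {f : R[X]} (hf : f.Monic) (k n : ℕ)
    (hφ : (1 : A) ≠ 0) (p : R[X]) : (gr k n f p).map φ = gr k n (f.map φ) (p.map φ) := by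
  ext i j
  rw [Matrix.map_apply]
  simp only [gr, Matrix.of_apply]
  rw [← Pool.HYP59.tau_map φ hf _ hφ, Polynomial.map_mul, Polynomial.map_pow, map_X]

theorem conj_mem {n : ℕ} (P : Ideal R) (u M : Matrix (Fin n) (Fin n) R)
    (h : ∀ i j, M i j ∈ P) : ∀ i j, (uᵀ * M * u) i j ∈ P := by
  intro i j
  rw [Matrix.mul_apply]
  refine P.sum_mem fun k _ => ?_
  rw [Matrix.mul_apply]
  refine P.mul_mem_right _ (P.sum_mem fun l _ => ?_)
  exact P.mul_mem_left _ (h l k)

theorem unS_conj {n : ℕ} {P : Ideal R} {d c : R} {γ f : R[X]} {e : ZMod 2}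
    {G S : Matrix (Fin n) (Fin n) R} (h : UnS n P d c γ f e G S)
    (u : Matrix (Fin n) (Fin n) R) (hu : u.det = 1) :
    UnS n P d c γ f e (uᵀ * G * u) (uᵀ * S * u) := by
  obtain ⟨a, p, ha, hpc, h1, h2, hG, hS⟩ := h
  refine ⟨a * u, p, ?_, hpc, h1, h2, ?_, ?_⟩
  · rw [Matrix.det_mul, hu, mul_one]
    exact ha
  · have e1 : uᵀ * G * u - (a * u)ᵀ * gr 0 n f p * (a * u) =
        uᵀ * (G - aᵀ * gr 0 n f p * a) * u := by
      rw [Matrix.transpose_mul, Matrix.mul_sub, Matrix.sub_mul]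
      simp only [Matrix.mul_assoc]
    rw [e1]
    exact conj_mem P u _ hG
  · have e1 : uᵀ * S * u - d • ((a * u)ᵀ * gr 1 n f p * (a * u)) =
        uᵀ * (S - d • (aᵀ * gr 1 n f p * a)) * u := by
      rw [Matrix.transpose_mul, Matrix.mul_sub, Matrix.sub_mul, Matrix.mul_smul,
        Matrix.smul_mul]
      simp only [Matrix.mul_assoc]
    rw [e1]
    exact conj_mem P u _ hS

theorem shA_conj {A : Type} [CommRing A] {g : ℕ} {d c : A} {γ : A[X]}
    {G S : Matrix (Fin (2 * g + 1)) (Fin (2 * g + 1)) A} (h : ShA g d c γ G S)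
    (u : Matrix (Fin (2 * g + 1)) (Fin (2 * g + 1)) A) (hu : u.det = 1) :
    ShA g d c γ (uᵀ * G * u) (uᵀ * S * u) := by
  obtain ⟨hG, hS, a, ha, hB⟩ := h
  have hu1 : IsUnit u.det := by rw [hu]; exact isUnit_one
  refine ⟨?_, ?_, u⁻¹ * a, ?_, ?_⟩
  · rw [Matrix.transpose_mul, Matrix.transpose_mul, Matrix.transpose_transpose, hG,
      Matrix.mul_assoc]
  · rw [Matrix.transpose_mul, Matrix.transpose_mul, Matrix.transpose_transpose, hS,
      Matrix.mul_assoc]
  · rw [Matrix.det_mul, Matrix.det_nonsing_inv, hu, Ring.inverse_one, one_mul]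
    exact ha
  · have e1 : ∀ M : Matrix (Fin (2 * g + 1)) (Fin (2 * g + 1)) A,
        (u⁻¹ * a)ᵀ * (uᵀ * M * u) * (u⁻¹ * a) = aᵀ * M * a := by
      intro M
      have e2 : u * (u⁻¹ * a) = a := by
        rw [← Matrix.mul_assoc, Matrix.mul_nonsing_inv u hu1, Matrix.one_mul]
      have e3 : (u⁻¹ * a)ᵀ * uᵀ = aᵀ := by
        rw [← Matrix.transpose_mul, e2]
      calc (u⁻¹ * a)ᵀ * (uᵀ * M * u) * (u⁻¹ * a)
          = ((u⁻¹ * a)ᵀ * uᵀ) * M * (u * (u⁻¹ * a)) := by simp only [Matrix.mul_assoc]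
        _ = aᵀ * M * a := by rw [e2, e3]
    rw [e1, e1]
    exact hB

end Pool.PNF.YLS51

namespace Pool.PNF

open Polynomial Matrix NumberField IsDedekindDomain Pool.HYP Pool.TOW Pool.AVS Pool.T1 Pool.NF
  Pool.PRK

theorem yls : YLSStmt := by
  intro R _ _ P g d c γ f f' y G S hf hf' _ _ hz hL
  have hnt : (1 : R ⧸ P.asIdeal) ≠ 0 := by
    have : Nontrivial (R ⧸ P.asIdeal) := Ideal.Quotient.nontrivial_iff.2 P.isPrime.ne_top
    exact one_ne_zero
  refine ⟨⟨fun h0 => ?_, hL.2⟩, fun u hu => ⟨fun h0 => ?_, fun h1 => ?_⟩⟩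
  · obtain ⟨a, p, ha, hpc, h1, h2, hG, hS⟩ := hL.1 h0
    have hff : f.map (Ideal.Quotient.mk P.asIdeal) = f'.map (Ideal.Quotient.mk P.asIdeal) := by
      have h1 : (f - f').map (Ideal.Quotient.mk P.asIdeal) = 0 := by
        ext i
        rw [coeff_map, coeff_zero]
        exact Ideal.Quotient.eq_zero_iff_mem.2 (hz i)
      rwa [Polynomial.map_sub, sub_eq_zero] at h1
    have hcomp : ∀ k, (aᵀ * gr k (2 * g + 1) f p * a).map (Ideal.Quotient.mk P.asIdeal) =
        (aᵀ * gr k (2 * g + 1) f' p * a).map (Ideal.Quotient.mk P.asIdeal) := by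
      intro k
      rw [Matrix.map_mul, Matrix.map_mul, Matrix.map_mul, Matrix.map_mul,
        YLS51.gr_map _ hf _ _ hnt, YLS51.gr_map _ hf' _ _ hnt, hff]
    have hmem : ∀ (A B C : Matrix (Fin (2 * g + 1)) (Fin (2 * g + 1)) R),
        B.map (Ideal.Quotient.mk P.asIdeal) = C.map (Ideal.Quotient.mk P.asIdeal) →
        (∀ i j, (A - B) i j ∈ P.asIdeal) → ∀ i j, (A - C) i j ∈ P.asIdeal := by
      intro A B C hBC hA i j
      have h1 := congrFun (congrFun hBC i) j
      rw [Matrix.map_apply, Matrix.map_apply, Ideal.Quotient.mk_eq_mk_iff_sub_mem] at h1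
      have h2 : (A - C) i j = (A - B) i j + (B i j - C i j) := by
        rw [Matrix.sub_apply, Matrix.sub_apply]
        ring
      rw [h2]
      exact P.asIdeal.add_mem (hA i j) h1
    refine ⟨a, p, ha, ?_, h1, h2, hmem _ _ _ (hcomp 0) hG, hmem _ _ _ ?_ hS⟩
    · show IsCoprime (p.map (Ideal.Quotient.mk P.asIdeal)) (f'.map (Ideal.Quotient.mk P.asIdeal))
      rw [← hff]
      exact hpc
    · ext i j
      have h3 := congrFun (congrFun (hcomp 1) i) j
      rw [Matrix.map_apply, Matrix.map_apply] at h3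
      rw [Matrix.map_apply, Matrix.map_apply, Matrix.smul_apply, Matrix.smul_apply, smul_eq_mul,
        smul_eq_mul, map_mul, map_mul, h3]
  · exact YLS51.unS_conj (hL.1 h0) u hu
  · have h2 := hL.2 h1
    have h3 := YLS51.shA_conj h2 (u.map (Ideal.Quotient.mk (P.asIdeal ^ 3))) (by
      have h4 := RingHom.map_det (Ideal.Quotient.mk (P.asIdeal ^ 3)) u
      rw [hu, map_one] at h4
      exact h4.symm)
    have h4 : ∀ M : Matrix (Fin (2 * g + 1)) (Fin (2 * g + 1)) R,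
        (uᵀ * M * u).map (Ideal.Quotient.mk (P.asIdeal ^ 3)) =
        (u.map (Ideal.Quotient.mk (P.asIdeal ^ 3)))ᵀ * M.map (Ideal.Quotient.mk (P.asIdeal ^ 3)) *
          u.map (Ideal.Quotient.mk (P.asIdeal ^ 3)) := by
      intro M
      rw [Matrix.map_mul, Matrix.map_mul, Matrix.transpose_map]
    unfold RaS
    rw [h4, h4]
    exact h3

end Pool.PNF
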